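import Pool.Agent.helper45.PV.SpecG

/-!
# Row pvg:ONT: `K₀(L1 D) → K₀(MC φ)` is onto
-/

set_option autoImplicit false

open scoped Matrix Topology

namespace Pool.Agent.PV

open Pool.Agent.CZ

/-- map is multiplicative -/
theorem ONT_rm {R S : Type} [Ring R] [Ring S] (f : R →+* S) {ι : Type} [Fintype ι] [DecidableEq ι]
    (A B : Matrix ι ι R) : (A * B).map f = A.map f * B.map f := map_mul f.mapMatrix A B

theorem ONT_mm {R S : Type} [NormedRing R] [NormedAlgebra ℂ R] [NormedRing S] [NormedAlgebra ℂ S]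
    (f : R →ₐ[ℂ] S) {ι : Type} [Fintype ι] [DecidableEq ι]
    (A B : Matrix ι ι R) : (A * B).map f = A.map f * B.map f := map_mul f.toRingHom.mapMatrix A B

theorem ONT_m1 {R S : Type} [NormedRing R] [NormedAlgebra ℂ R] [NormedRing S] [NormedAlgebra ℂ S]
    (f : R →ₐ[ℂ] S) {ι : Type} [Fintype ι] [DecidableEq ι] :
    (1 : Matrix ι ι R).map f = 1 := map_one f.toRingHom.mapMatrix

theorem ONT_unit {R S : Type} [NormedRing R] [NormedAlgebra ℂ R] [NormedRing S] [NormedAlgebra ℂ S]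
    (f : R →ₐ[ℂ] S) {ι : Type} [Fintype ι] [DecidableEq ι] (X : (Matrix ι ι R)ˣ) :
    IsUnit ((X : Matrix ι ι R).map f) :=
  X.isUnit.map f.toRingHom.mapMatrix

/-- the image of a conjugate -/
theorem ONT_cj {R S : Type} [NormedRing R] [NormedAlgebra ℂ R] [NormedRing S] [NormedAlgebra ℂ S]
    (f : R →ₐ[ℂ] S) {ι : Type} [Fintype ι] [DecidableEq ι] (X : (Matrix ι ι R)ˣ) (E : Matrix ι ι R)
    (P : Matrix ι ι S) (h : (X : Matrix ι ι R).map f * E.map f = P * (X : Matrix ι ι R).map f) :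
    ((X : Matrix ι ι R) * E * ((X⁻¹ : (Matrix ι ι R)ˣ) : Matrix ι ι R)).map f = P := by
  refine (ONT_unit f X).mul_right_cancel ?_
  rw [← h, ← ONT_mm, ← ONT_mm, mul_assoc, Units.inv_mul, mul_one]

theorem ONT_conj (hK0E : K0E_stmt) {A : Type} [Ring A] {ι : Type} [Fintype ι] [DecidableEq ι]
    (e f : Matrix ι ι A) (he : e * e = e) (hf : f * f = f) (u : (Matrix ι ι A)ˣ)
    (h : f = (u : Matrix ι ι A) * e * ((u⁻¹ : (Matrix ι ι A)ˣ) : Matrix ι ι A)) :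
    k0 f hf = k0 e he :=
  hK0E A ι ι f e hf he ((u : Matrix ι ι A) * e) ((u⁻¹ : (Matrix ι ι A)ˣ) : Matrix ι ι A) h.symm
    (by rw [← mul_assoc, Units.inv_mul, one_mul])

theorem ONT_cjid {A : Type} [Ring A] {ι : Type} [Fintype ι] [DecidableEq ι]
    (e : Matrix ι ι A) (he : e * e = e) (u : (Matrix ι ι A)ˣ) :
    ((u : Matrix ι ι A) * e * ((u⁻¹ : (Matrix ι ι A)ˣ) : Matrix ι ι A)) *
      ((u : Matrix ι ι A) * e * ((u⁻¹ : (Matrix ι ι A)ˣ) : Matrix ι ι A)) =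
      ((u : Matrix ι ι A) * e * ((u⁻¹ : (Matrix ι ι A)ˣ) : Matrix ι ι A)) := by
  have h1 : ((u : Matrix ι ι A) * e * ((u⁻¹ : (Matrix ι ι A)ˣ) : Matrix ι ι A)) *
      ((u : Matrix ι ι A) * e * ((u⁻¹ : (Matrix ι ι A)ˣ) : Matrix ι ι A)) =
      (u : Matrix ι ι A) * (e * ((((u⁻¹ : (Matrix ι ι A)ˣ) : Matrix ι ι A) * (u : Matrix ι ι A)) * e)) *
        ((u⁻¹ : (Matrix ι ι A)ˣ) : Matrix ι ι A) := by
    simp only [mul_assoc]
  rw [h1, Units.inv_mul, one_mul, he]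

theorem ONT_congr {A : Type} [Ring A] {ι : Type} [Fintype ι]
    (e f : Matrix ι ι A) (he : e * e = e) (hf : f * f = f) (h : e = f) : k0 e he = k0 f hf := by
  subst h
  rfl

theorem ONT_pad {R S : Type} [Ring R] [Ring S] (f : R → S) (h0 : f 0 = 0) (h1 : f 1 = 1) {ι : Type}
    (e : Matrix ι ι R) (k l : ℕ) : (pad e k l).map f = pad (e.map f) k l := by
  unfold pad
  rw [Matrix.fromBlocks_map, Matrix.fromBlocks_map, Matrix.map_one f h0 h1]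
  simp only [Matrix.map_zero f h0]

/-- the matrix `diag(0, 0, 1)` -/
def ONT_P (R : Type) [Ring R] (n b d : ℕ) :
    Matrix (Fin n ⊕ (Fin b ⊕ Fin d)) (Fin n ⊕ (Fin b ⊕ Fin d)) R :=
  Matrix.fromBlocks 0 0 0 (Matrix.fromBlocks 0 0 0 1)

theorem ONT_Pmap {R S : Type} [Ring R] [Ring S] (f : R → S) (h0 : f 0 = 0) (h1 : f 1 = 1) (n b d : ℕ) :
    (ONT_P R n b d).map f = ONT_P S n b d := by
  unfold ONT_P
  rw [Matrix.fromBlocks_map, Matrix.fromBlocks_map, Matrix.map_one f h0 h1]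
  simp only [Matrix.map_zero f h0]

theorem ONT_Pcls (hK0B : K0B_stmt) (R : Type) [Ring R] (n b d : ℕ) :
    ∃ h : ONT_P R n b d * ONT_P R n b d = ONT_P R n b d, k0 (ONT_P R n b d) h = d • unitCls R := by
  obtain ⟨B1, B2, B3⟩ := hK0B
  have h1 : (Matrix.fromBlocks 0 0 0 1 : Matrix (Fin b ⊕ Fin d) (Fin b ⊕ Fin d) R) *
      Matrix.fromBlocks 0 0 0 1 = Matrix.fromBlocks 0 0 0 1 := by
    rw [Matrix.fromBlocks_multiply]
    simp
  have h2 : ONT_P R n b d * ONT_P R n b d = ONT_P R n b d := by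
    unfold ONT_P
    rw [Matrix.fromBlocks_multiply, h1]
    simp
  refine ⟨h2, ?_⟩
  have e1 := B1 R (Fin n) (Fin b ⊕ Fin d) 0 (Matrix.fromBlocks 0 0 0 1) (mul_zero _) h1 h2
  have e2 := B1 R (Fin b) (Fin d) 0 1 (mul_zero _) (mul_one _) h1
  have e3 : k0 (ONT_P R n b d) h2 = k0 (0 : Matrix (Fin n) (Fin n) R) (mul_zero _) +
      k0 (Matrix.fromBlocks 0 0 0 1 : Matrix (Fin b ⊕ Fin d) (Fin b ⊕ Fin d) R) h1 := e1
  rw [e3, e2, B2, B2, B3, Fintype.card_fin, zero_add, zero_add]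

/-- the main step: an idempotent matrix over the mapping cone whose component over `C` is conjugate to a
scalar matrix -/
theorem ONT_step (hK0E : K0E_stmt) (hK0B : K0B_stmt)
    (hIDC : IDC_stmt) (hLFT : LFT_stmt) (hSCL : SCL_stmt)
    (hLPM : LPM_stmt) (C D : Type) [NormedRing C] [NormedAlgebra ℂ C] [NormedRing D]
    [NormedAlgebra ℂ D] (φ : C →ₐ[ℂ] D) (χ : D →ₐ[ℂ] ℂ) (hχ : Continuous χ)
    (κ : Type) [Fintype κ] [DecidableEq κ] (E : Matrix κ κ (MC φ)) (hE : E * E = E)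
    (R : Matrix κ κ ℂ) (x : (Matrix κ κ C)ˣ)
    (hx : (x : Matrix κ κ C) * E.map (gM φ) = R.map (algebraMap ℂ C) * x) :
    ∃ z : K0 (L1 D), k0map (jm φ χ).toRingHom z = k0 E hE := by
  obtain ⟨X, hX, hX0⟩ := hLFT C D φ κ x
  have hE2 : (Matrix.fromBlocks E 0 0 0 : Matrix (κ ⊕ κ) (κ ⊕ κ) (MC φ)) * Matrix.fromBlocks E 0 0 0 =
      Matrix.fromBlocks E 0 0 0 := by
    rw [Matrix.fromBlocks_multiply, hE]
    simp
  let G : Matrix (κ ⊕ κ) (κ ⊕ κ) (MC φ) := (X : Matrix (κ ⊕ κ) (κ ⊕ κ) (MC φ)) * Matrix.fromBlocks E 0 0 0 *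
        ((X⁻¹ : (Matrix (κ ⊕ κ) (κ ⊕ κ) (MC φ))ˣ) : Matrix (κ ⊕ κ) (κ ⊕ κ) (MC φ))
  let Q : Matrix (κ ⊕ κ) (κ ⊕ κ) ℂ := Matrix.fromBlocks R 0 0 0
  have hQm : Q.map (algebraMap ℂ C) = Matrix.fromBlocks (R.map (algebraMap ℂ C)) 0 0 0 := by
    change (Matrix.fromBlocks R 0 0 0).map (algebraMap ℂ C) = _
    rw [Matrix.fromBlocks_map]
    simp only [Matrix.map_zero _ (map_zero (algebraMap ℂ C))]
  have hGi : G * G = G := ONT_cjid _ hE2 X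
  have hGc : k0 G hGi = k0 (Matrix.fromBlocks E 0 0 0) hE2 :=
    ONT_conj hK0E _ _ hE2 hGi X rfl
  have hGg : G.map (gM φ) = Q.map (algebraMap ℂ C) := by
    refine ONT_cj (gM φ) X _ _ ?_
    rw [hQm, hX, Matrix.fromBlocks_map, Matrix.fromBlocks_multiply, Matrix.fromBlocks_multiply]
    simp only [Matrix.map_zero _ (map_zero (gM φ)), mul_zero, zero_mul, add_zero]
    rw [hx]
  -- the path of complex idempotent matrices
  obtain ⟨h, hh⟩ := pthM φ G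
  let p : C(unitInterval, Matrix (κ ⊕ κ) (κ ⊕ κ) ℂ) :=
    ⟨fun s => (h s).map χ, h.continuous.matrix_map hχ⟩
  have hp : ∀ s, p s = (G.map (pM φ s)).map χ := fun s => by
    change (h s).map χ = _
    rw [hh]
  have hpi : ∀ s, p s * p s = p s := fun s => by
    rw [hp, ← ONT_mm, ← ONT_mm, hGi]
  have hp1 : p 1 = Q := by
    rw [hp, (endM φ χ G).2, hGg]
    refine Matrix.ext fun i j => ?_
    change χ (φ (algebraMap ℂ C (Q i j))) = Q i j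
    rw [φ.commutes, χ.commutes]
    rfl
  obtain ⟨y, hy⟩ := hIDC _ p hpi
  obtain ⟨Y, hYg, hY0, -⟩ := hSCL C D φ _ y
  let H : Matrix (κ ⊕ κ) (κ ⊕ κ) (MC φ) := (Y : Matrix (κ ⊕ κ) (κ ⊕ κ) (MC φ)) * G *
    ((Y⁻¹ : (Matrix (κ ⊕ κ) (κ ⊕ κ) (MC φ))ˣ) : Matrix (κ ⊕ κ) (κ ⊕ κ) (MC φ))
  have hHi : H * H = H := ONT_cjid _ hGi Y
  have hHc : k0 H hHi = k0 G hGi := ONT_conj hK0E _ _ hGi hHi Y rfl
  have hHg : H.map (gM φ) = Q.map (algebraMap ℂ C) := by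
    refine ONT_cj (gM φ) Y _ _ ?_
    rw [hYg, one_mul, mul_one, hGg]
  have hH0 : H.map (pM φ 0) = Q.map (algebraMap ℂ D) := by
    refine ONT_cj (pM φ 0) Y _ _ ?_
    have e1 : G.map (pM φ 0) = (p 0).map (algebraMap ℂ D) := by
      rw [(endM φ χ G).1, hp]
      rfl
    rw [hY0, e1, ← ONT_rm, ← ONT_rm, hy, hp1]
  have hH1 : H.map (pM φ 1) = Q.map (algebraMap ℂ D) := by
    rw [(endM φ χ H).2, hHg]
    refine Matrix.ext fun i j => ?_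
    exact φ.commutes (Q i j)
  obtain ⟨F, hF, -, -, hFi⟩ := hLPM C D φ χ _ H Q hH0 hH1 hHg
  have hFF := hFi hHi
  refine ⟨k0 F hFF, ?_⟩
  have hm : F.map (jm φ χ) * F.map (jm φ χ) = F.map (jm φ χ) := by rw [← ONT_mm, hFF]
  have e1 : k0map (jm φ χ).toRingHom (k0 F hFF) = k0 (F.map (jm φ χ)) hm := rfl
  have e2 : k0 (F.map (jm φ χ)) hm = k0 H hHi := ONT_congr _ _ _ _ hF
  have e3 := hK0B.1 (MC φ) κ κ E 0 hE (mul_zero _) hE2
  rw [e1, e2, hHc, hGc, e3, hK0B.2.1, add_zero]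

/-- an idempotent matrix over the mapping cone -/
theorem ONT_main (hK0E : K0E_stmt) (hK0B : K0B_stmt)
    (hK0C : K0C_stmt) (hK0D : K0D_stmt) (hIDC : IDC_stmt) (hLFT : LFT_stmt) (hSCL : SCL_stmt)
    (hLPM : LPM_stmt) (C D : Type) [NormedRing C] [NormedAlgebra ℂ C] [NormedRing D]
    [NormedAlgebra ℂ D] (φ : C →ₐ[ℂ] D) (χ : D →ₐ[ℂ] ℂ) (hχ : Continuous χ)
    (hC : ∀ z : K0 C, ∃ n : ℤ, z = n • unitCls C) (n : ℕ) (E : Matrix (Fin n) (Fin n) (MC φ))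
    (hE : E * E = E) :
    ∃ (x : K0 (L1 D)) (m : ℕ), k0map (jm φ χ).toRingHom x = k0 E hE + m • unitCls (MC φ) := by
  -- the class of the component over `C`
  have hg : E.map (gM φ) * E.map (gM φ) = E.map (gM φ) := by rw [← ONT_mm, hE]
  obtain ⟨a, ha⟩ := hC (k0 (E.map (gM φ)) hg)
  obtain ⟨b, d, hbd⟩ : ∃ b d : ℕ, a + (b : ℤ) = d := by
    refine ⟨a.natAbs, (a + a.natAbs).toNat, ?_⟩
    rw [Int.toNat_of_nonneg]
    omega
  obtain ⟨hP, hPc⟩ := ONT_Pcls hK0B C n b d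
  obtain ⟨hE1, hE1c⟩ := hK0D (MC φ) (Fin n) E hE b d
  obtain ⟨hg1, hg1c⟩ := hK0D C (Fin n) (E.map (gM φ)) hg b d
  have hcl : k0 (pad (E.map (gM φ)) b d) hg1 = k0 (ONT_P C n b d) hP := by
    rw [hg1c, hPc, ha, ← natCast_zsmul, ← natCast_zsmul, ← add_smul, hbd]
  obtain ⟨k, l, x, hx⟩ := hK0C C _ _ _ hg1 hP hcl
  obtain ⟨hE2, hE2c⟩ := hK0D (MC φ) _ (pad E b d) hE1 k l
  obtain ⟨z, hz⟩ := ONT_step hK0E hK0B hIDC hLFT hSCL hLPM C D φ χ hχ _ (pad (pad E b d) k l) hE2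
    (pad (ONT_P ℂ n b d) k l) x (by
      rw [ONT_pad _ (map_zero (gM φ)) (map_one (gM φ)), ONT_pad _ (map_zero (gM φ)) (map_one (gM φ)),
        ONT_pad _ (map_zero (algebraMap ℂ C)) (map_one (algebraMap ℂ C)),
        ONT_Pmap _ (map_zero (algebraMap ℂ C)) (map_one (algebraMap ℂ C)), hx])
  refine ⟨z, k + b, ?_⟩
  rw [hz, hE2c, hE1c, add_smul]
  abel

theorem ONT (hFUN : FUN_stmt) (hK0E : K0E_stmt) (hK0B : K0B_stmt) (hK0G : K0G_stmt)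
    (hK0C : K0C_stmt) (hK0D : K0D_stmt) (hIDC : IDC_stmt) (hLFT : LFT_stmt) (hSCL : SCL_stmt)
    (hLPM : LPM_stmt) : ONT_stmt := by
  intro C D _ _ _ _ _ _ φ χ hφ hχ hC z
  obtain ⟨n, m, E, hE, hz⟩ := hK0G (MC φ) z
  obtain ⟨x, m', hx⟩ := ONT_main hK0E hK0B hK0C hK0D hIDC hLFT hSCL hLPM C D φ χ hχ hC n E hE
  refine ⟨x - (m' + m) • unitCls (L1 D), ?_⟩
  rw [map_sub, map_nsmul, hFUN.2.2.1, hx, hz, add_smul]
  abel

end Pool.Agent.PV
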