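import Pool.Agent.helper53.PV.SpecF

/-! # Row pvf:FBI (MP_376aaf_an) -/

set_option autoImplicit false

open scoped Topology
open MeasureTheory Filter

namespace Pool.Agent.PV

open Pool.Agent.CZ

/-- composition as a linear map -/
def FBI_comp {X Y : Type} [TopologicalSpace X] [TopologicalSpace Y] (π : C(X, Y)) :
    C(Y, ℝ) →ₗ[ℝ] C(X, ℝ) where
  toFun k := k.comp π
  map_add' k l := by ext x; rfl
  map_smul' c k := by ext x; rfl

theorem FBI_eq {a b : ℝ} (h : ∀ ε : ℝ, 0 < ε → |a - b| ≤ ε) : a = b := by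
  have h1 : |a - b| ≤ 0 := le_of_forall_pos_le_add fun ε hε => by
    rw [zero_add]
    exact h ε hε
  exact sub_eq_zero.1 (abs_nonpos_iff.1 h1)

theorem FBI_two {a b c ε : ℝ} (h1 : |a - c| ≤ ε / 2) (h2 : |b - c| ≤ ε / 2) : |a - b| ≤ ε := by
  have h3 : a - b = (a - c) - (b - c) := by ring
  rw [h3]
  have h4 := abs_sub (a - c) (b - c)
  linarith

theorem FBI (hFCL : FCL_stmt) (hFID : FID_stmt) (hFAX : FAX_stmt) (hFEX : FEX_stmt) : FBI_stmt := by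
  intro X₀ Y _ _ _ _ _ _ α₀ x₀ f hf hper
  obtain ⟨i1, i2, -⟩ := hFID X₀ Y α₀ x₀ f
  have hclosed := hFCL X₀ Y α₀ x₀ f hf
  have : CompactSpace (ESp α₀ x₀ f) := isCompact_iff_compactSpace.1 hclosed.isCompact
  have hdown : ∀ φ : InvSt (eHom α₀ x₀ f), ∃ φ₀ : InvSt α₀,
      ∀ k : C(X₀, ℝ), φ.φ (k.comp (ePr α₀ x₀ f)) = φ₀.φ k := by
    intro φ
    refine ⟨⟨φ.φ.comp (FBI_comp (ePr α₀ x₀ f)), ?_, ?_, ?_⟩, ?_⟩
    · intro k hk
      exact φ.nonneg _ fun p => hk _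
    · have h1 : FBI_comp (ePr α₀ x₀ f) 1 = 1 := by ext x; rfl
      rw [LinearMap.comp_apply, h1]
      exact φ.one
    · intro k
      rw [LinearMap.comp_apply, LinearMap.comp_apply]
      have h1 : FBI_comp (ePr α₀ x₀ f) (k.comp (α₀ : C(X₀, X₀))) =
          (FBI_comp (ePr α₀ x₀ f) k).comp (eHom α₀ x₀ f : C(ESp α₀ x₀ f, ESp α₀ x₀ f)) := by
        ext p
        show k (α₀ (ePr α₀ x₀ f p)) = k (ePr α₀ x₀ f (eHom α₀ x₀ f p))
        rw [i2]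
      rw [h1]
      exact φ.inv _
    · intro k
      rfl
  refine ⟨?_, hdown, ?_⟩
  · intro φ ψ hφψ
    obtain ⟨φ₀, hφ₀⟩ := hdown φ
    ext g
    refine FBI_eq fun ε hε => ?_
    obtain ⟨g₀, hg₀⟩ := hFAX X₀ Y α₀ x₀ f hf hper g (ε / 2) (by positivity)
    exact FBI_two (hg₀ φ.φ φ₀ φ.nonneg hφ₀)
      (hg₀ ψ.φ φ₀ ψ.nonneg fun k => by rw [← hφψ k]; exact hφ₀ k)
  · intro φ₀
    obtain ⟨φ, hpos, hext⟩ := hFEX (ESp α₀ x₀ f) X₀ (ePr α₀ x₀ f) (fun x => ⟨_, i1 x⟩) φ₀.φ φ₀.nonneg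
    refine ⟨⟨φ, hpos, ?_, ?_⟩, hext⟩
    · have h1 := hext 1
      have h2 : (1 : C(X₀, ℝ)).comp (ePr α₀ x₀ f) = 1 := by ext x; rfl
      rw [h2, φ₀.one] at h1
      exact h1
    · intro g
      refine FBI_eq fun ε hε => ?_
      obtain ⟨g₀, hg₀⟩ := hFAX X₀ Y α₀ x₀ f hf hper g (ε / 2) (by positivity)
      refine FBI_two (c := φ₀.φ g₀) ?_ (hg₀ φ φ₀ hpos hext)
      have h3 := hg₀ (φ.comp (FBI_comp (eHom α₀ x₀ f : C(ESp α₀ x₀ f, ESp α₀ x₀ f)))) φ₀ ?_ ?_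
      · exact h3
      · intro k hk
        exact hpos _ fun p => hk _
      · intro k
        rw [LinearMap.comp_apply]
        have h1 : FBI_comp (eHom α₀ x₀ f : C(ESp α₀ x₀ f, ESp α₀ x₀ f)) (k.comp (ePr α₀ x₀ f)) =
            (k.comp (α₀ : C(X₀, X₀))).comp (ePr α₀ x₀ f) := by
          ext p
          show k (ePr α₀ x₀ f (eHom α₀ x₀ f p)) = k (α₀ (ePr α₀ x₀ f p))
          rw [i2]
        rw [h1, hext]
        exact φ₀.inv k

end Pool.Agent.PV
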