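import Pool.Agent.helper77.PV.SpecK

/-!
# Row pvk:KTA: two Pimsner-Voiculescu sequences and the five lemma
-/

set_option autoImplicit false

namespace Pool.Agent.PV

open Pool.Agent.CZ Pool.Agent.PVH

theorem KTA_cont {B C : Type} [NormedRing B] [NormedAlgebra ℂ B] [NormedRing C] [NormedAlgebra ℂ C]
    (f : B →ₐ[ℂ] C) (h : ∀ b, ‖f b‖ = ‖b‖) : Continuous f.toRingHom :=
  (AddMonoidHomClass.isometry_of_norm f h).continuous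

theorem KTA (hKSH : KSH_stmt) (hKFV : KFV_stmt) (hKM0 : KM0_stmt) (hKM1 : KM1_stmt) (hPVS : PVS_stmt)
    (hD1N : D1N_stmt) (hD0N : D0N_stmt) (hDZP : DZP_stmt) (hDZM : DZM_stmt) (hFUN : FUN_stmt) : KTA_stmt := by
  intro X₀ Y X _ _ _ _ _ _ α₀ α π e r hE A A₀ _ _ ι u c ι₀ u₀ c₀ hC hC₀ Φ hΦι hΦu y hΦ hr
  obtain ⟨-, hF0, -, -, hF1⟩ := hFUN
  have hZ := hDZP X α A ι u c hC
  have hZ₀ := hDZP X₀ α₀ A₀ ι₀ u₀ c₀ hC₀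
  have hM := hDZM X X₀ α α₀ π hE.eqv A A₀ ι u ι₀ u₀ Φ hΦι hΦu
  have hi : Continuous ι.toAlgHom.toRingHom := KTA_cont _ hZ.isoA
  have hi₀ : Continuous ι₀.toAlgHom.toRingHom := KTA_cont _ hZ₀.isoA
  have ha : Continuous (alC α : C(X, ℂ) →ₐ[ℂ] C(X, ℂ)).toRingHom := KTA_cont _ hZ.isoB
  have ha₀ : Continuous (alC α₀ : C(X₀, ℂ) →ₐ[ℂ] C(X₀, ℂ)).toRingHom := KTA_cont _ hZ₀.isoB
  have hj : Continuous (pbC ℂ π).toRingHom := KTA_cont _ hE.ms.iso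
  have hrk : ∀ k, Continuous (r k).toRingHom := fun k => hE.ms.cr k
  obtain ⟨d1, d0, hd1, hd0, a1, a2, a3, a4, a5, a6, -⟩ :=
    hPVS _ _ (alC α) ι.toAlgHom (Unitary.toUnits u) c hi ha hZ
  obtain ⟨g1, g0, hg1, hg0, b1, b2, b3, b4, b5, b6, -⟩ :=
    hPVS _ _ (alC α₀) ι₀.toAlgHom (Unitary.toUnits u₀) c₀ hi₀ ha₀ hZ₀
  have hK0 := hKM0 X₀ Y X α₀ α π e r hE y
  have hK1 := hKM1 X₀ Y X α₀ α π e r hE ha₀ ha hj hrk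
  obtain ⟨s1, -, -, s4⟩ := hKSH _ _ _ _ _ _ _ hK1
  obtain ⟨t1, -, -, t4⟩ := hKSH _ _ _ _ _ _ _ hK0
  have hcomp : (Φ.toAlgHom.toRingHom).comp ι₀.toAlgHom.toRingHom =
      (ι.toAlgHom.toRingHom).comp (pbC ℂ π).toRingHom := by
    ext f
    exact hΦι f
  have hN0 : ∀ x, k0map Φ.toAlgHom.toRingHom (k0map ι₀.toAlgHom.toRingHom x) =
      k0map ι.toAlgHom.toRingHom (k0map (pbC ℂ π).toRingHom x) := by
    intro x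
    rw [← hF0, ← hF0, hcomp]
  have hN1 : ∀ x, k1map Φ.toAlgHom.toRingHom hΦ (k1map ι₀.toAlgHom.toRingHom hi₀ x) =
      k1map ι.toAlgHom.toRingHom hi (k1map (pbC ℂ π).toRingHom hj x) := by
    intro x
    have q1 := hF1 _ _ _ ι₀.toAlgHom.toRingHom Φ.toAlgHom.toRingHom hi₀ hΦ (hΦ.comp hi₀) x
    have q2 := hF1 _ _ _ (pbC ℂ π).toRingHom ι.toAlgHom.toRingHom hj hi (hi.comp hj) x
    rw [← q1, ← q2]
    congr 2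
  have hD0 : ∀ z, k1map (pbC ℂ π).toRingHom hj (g0 z) = d0 (k0map Φ.toAlgHom.toRingHom z) :=
    hD0N _ _ _ _ _ _ _ _ _ _ _ _ _ _ hj hZ₀ hZ hM g0 d0 hg0 hd0
  have hD1 : ∀ z, k0map (pbC ℂ π).toRingHom (g1 z) = d1 (k1map Φ.toAlgHom.toRingHom hΦ z) :=
    hD1N _ _ _ _ _ _ _ _ _ _ _ _ _ _ hΦ hZ₀ hZ hM g1 d1 hg1 hd1
  have hr0 : ∀ s, k0map ι.toAlgHom.toRingHom (k0map (r 0).toRingHom s) =
      k0map (ι.toAlgHom.comp (r 0)).toRingHom s := fun s =>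
    (hF0 _ _ _ (r 0).toRingHom ι.toAlgHom.toRingHom s).symm
  have hr1 : ∀ s, k1map ι.toAlgHom.toRingHom hi (k1map (r 0).toRingHom (hrk 0) s) =
      k1map (ι.toAlgHom.comp (r 0)).toRingHom hr s := fun s =>
    (hF1 _ _ _ (r 0).toRingHom ι.toAlgHom.toRingHom (hrk 0) hi hr s).symm
  obtain ⟨P1, P2⟩ := hKFV _ _ _ _ _ _ _ _ _ _ _ _ _ _ _ _ g0 d0 _ hK0 s4 s1 hN0 hD0 a1 b1 a2 b2 a3 b3
  obtain ⟨Q1, Q2⟩ := hKFV _ _ _ _ _ _ _ _ _ _ _ _ _ _ _ _ g1 d1 _ hK1 t4 t1 hN1 hD1 a4 b4 a5 b5 a6 b6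
  refine ⟨?_, ?_, ?_, ?_⟩
  · intro z
    obtain ⟨x, s, hs⟩ := P1 z
    refine ⟨x, s.1, s.2, ?_⟩
    rw [hs, ← hr0]
    rfl
  · intro x s hs h
    obtain ⟨h1, h2⟩ := P2 x ⟨s, hs⟩ (by rw [← hr0] at h; exact h)
    exact ⟨h1, congrArg Subtype.val h2⟩
  · intro z
    obtain ⟨x, s, hs⟩ := Q1 z
    exact ⟨x, s, by rw [hs, ← hr1]⟩
  · intro x s h
    exact Q2 x s (by rw [hr1]; exact h)

end Pool.Agent.PV
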