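import Pool.Agent.helper77.PV.SpecA

/-! # Row pv:MSF (MP_376aaf_an) -/

set_option autoImplicit false

open scoped Matrix Topology
open Filter

namespace Pool.Agent.PV

open Pool.Agent.CZ

theorem MSF_closed (D : Type) [NormedRing D] [NormedAlgebra ℂ D] :
    IsClosed {d : D | ∃ z : ℂ, d = algebraMap ℂ D z} := by
  have h : {d : D | ∃ z : ℂ, d = algebraMap ℂ D z} =
      (LinearMap.range (Algebra.linearMap ℂ D) : Set D) := by
    ext d
    simp only [Set.mem_ofPred_eq, SetLike.mem_coe, LinearMap.mem_range, Algebra.linearMap_apply]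
    exact ⟨fun ⟨z, hz⟩ => ⟨z, hz.symm⟩, fun ⟨z, hz⟩ => ⟨z, hz.symm⟩⟩
  rw [h]
  exact Submodule.closed_of_finiteDimensional _

theorem MSF : MSF_stmt := by
  intro I C₀ C D _ _ _ _ _ _ j e r hs
  refine ⟨?_, hs.dense, ?_, ?_⟩
  · intro F
    have h : (mS e F : Set C) = ⋂ k, ⋂ (_ : k ∉ F), e k ⁻¹' {d : D | ∃ z : ℂ, d = algebraMap ℂ D z} := by
      ext c
      simp only [Set.mem_iInter]
      exact Iff.rfl
    rw [h]
    exact isClosed_iInter fun k => isClosed_iInter fun _ => (MSF_closed D).preimage (hs.ce k)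
  · intro F G hFG c hc k hk
    exact hc k fun h => hk (hFG h)
  · intro _ F k hk
    have hmem : ∀ d, r k d ∈ mS e (insert k F) := by
      intro d i hi
      refine hs.eo i k ?_ d
      intro h
      exact hi (h ▸ Finset.mem_insert_self _ _)
    refine ⟨(r k).codRestrict (mS e (insert k F)) hmem, fun d => rfl, ?_, ?_, ?_, ?_, ?_, ?_⟩
    · intro x
      rfl
    · rintro ⟨c, hc⟩ ⟨z, hz⟩
      refine ⟨⟨c, ?_⟩, rfl⟩
      intro i hi
      by_cases hik : i = k
      · rw [hik]
        exact ⟨z, hz⟩
      · refine hc i ?_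
        rw [Finset.mem_insert]
        rintro (h | h)
        · exact hik h
        · exact hi h
    · intro x
      exact x.2 k hk
    · exact (hs.ce k).comp continuous_subtype_val
    · exact (hs.cr k).subtype_mk _
    · intro d
      exact hs.er k d

end Pool.Agent.PV
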